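import Pool.Agent.Helper28.ND.Spec4

/-!
# MP_0c2f33_an, second swarm, part SRC: the sources in the sense of distributions.
-/

set_option autoImplicit false

namespace Pool.Agent.Helper39.ND.SRC
open Pool.Agent.Helper28.ND MeasureTheory Set Filter Topology
open scoped ENNReal NNReal

/-- the active times -/
noncomputable def sg (n0 N M : ℕ) : ℕ → ℕ → ℝ → ℝ
  | 0, k, t => if 0 < t ∧ t < KC n0 N M k then 1 else 0
  | (n + 1), k, t => if t ≤ 0 ∨ KC n0 N M k ≤ t then 0 else
      if loc (LL n0 N (k + 1)) t < LL n0 N (k + 1) then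
        sg n0 N M n (k + 1) (loc (LL n0 N (k + 1)) t)
      else 0

theorem ft_eq (n0 N M : ℕ) (n : ℕ) : ∀ (k : ℕ) (t : ℝ) (x : Fin 2 → ℝ),
    ft n0 N M n k t x = sg n0 N M n k t * gi (rr n0 N (k + n)) x := by
  induction n with
  | zero =>
    intro k t x
    simp only [ft, sg, Nat.add_zero]
    split_ifs <;> simp
  | succ n ih =>
    intro k t x
    simp only [ft, sg]
    split_ifs
    · simp
    · rw [ih]
      have : k + 1 + n = k + (n + 1) := by ring
      rw [this]
    · simp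

theorem sg_le (n0 N M : ℕ) (n : ℕ) : ∀ (k : ℕ) (t : ℝ), |sg n0 N M n k t| ≤ 1 := by
  induction n with
  | zero =>
    intro k t
    simp only [sg]
    split_ifs <;> simp
  | succ n ih =>
    intro k t
    simp only [sg]
    split_ifs
    · simp
    · exact ih _ _
    · simp

theorem LL_pos {n0 N : ℕ} (h0 : 0 < n0) (hN : 0 < N) (k : ℕ) : 0 < LL n0 N k := by
  unfold LL rr
  have : 0 < n0 * N ^ k := by positivity
  have h2 : (0 : ℝ) < ((n0 * N ^ k : ℕ) : ℝ) := by exact_mod_cast this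
  positivity

theorem vol_sg {n0 N M : ℕ} (h0 : 0 < n0) (hN : 0 < N) (n : ℕ) : ∀ k : ℕ,
    volume {t | sg n0 N M n k t ≠ 0} ≤ ENNReal.ofReal ((M : ℝ) ^ n * KC n0 N M (k + n)) := by
  induction n with
  | zero =>
    intro k
    have hsub : {t | sg n0 N M 0 k t ≠ 0} ⊆ Ioo 0 (KC n0 N M k) := by
      intro t ht
      simp only [sg, mem_ofPred_eq, ne_eq, ite_eq_right_iff, one_ne_zero, imp_false,
        not_not] at ht
      exact ht
    refine (measure_mono hsub).trans ?_
    rw [Real.volume_Ioo]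
    simp
  | succ n ih =>
    intro k
    set L := LL n0 N (k + 1) with hL
    have hLpos : 0 < L := LL_pos h0 hN _
    have hsub : {t | sg n0 N M (n + 1) k t ≠ 0} ⊆
        ⋃ j ∈ Finset.range M, (fun t : ℝ => t + (-(2 * L * (j : ℝ)))) ⁻¹'
          {t | sg n0 N M n (k + 1) t ≠ 0} := by
      intro t ht
      simp only [sg, mem_ofPred_eq] at ht
      split_ifs at ht with h1 h2
      · exact absurd rfl ht
      · push Not at h1
        obtain ⟨ht0, htK⟩ := h1
        have hKC : KC n0 N M k = 2 * M * L := rfl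
        rw [hKC] at htK
        have hq0 : 0 ≤ t / (2 * L) := by positivity
        have hq1 : t / (2 * L) < M := by
          rw [div_lt_iff₀ (by positivity)]
          linarith
        have hf0 : 0 ≤ ⌊t / (2 * L)⌋ := Int.floor_nonneg.2 hq0
        obtain ⟨j, hj⟩ := Int.eq_ofNat_of_zero_le hf0
        have hjM : j < M := by
          have h3 : ((⌊t / (2 * L)⌋ : ℤ) : ℝ) ≤ t / (2 * L) := Int.floor_le _
          rw [hj] at h3
          have h4 : (j : ℝ) < M := lt_of_le_of_lt (by exact_mod_cast h3) hq1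
          exact_mod_cast h4
        simp only [mem_iUnion, mem_preimage, mem_ofPred_eq, Finset.mem_range]
        refine ⟨j, hjM, ?_⟩
        have h5 : loc L t = t + (-(2 * L * (j : ℝ))) := by
          unfold loc
          rw [hj]
          push_cast
          ring
        rw [← h5]
        exact ht
      · exact absurd rfl ht
    refine (measure_mono hsub).trans ?_
    refine (measure_biUnion_finset_le _ _).trans ?_
    have hsum : ∀ j ∈ Finset.range M, volume ((fun t : ℝ => t + (-(2 * L * (j : ℝ)))) ⁻¹'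
          {t | sg n0 N M n (k + 1) t ≠ 0}) ≤
        ENNReal.ofReal ((M : ℝ) ^ n * KC n0 N M (k + 1 + n)) := by
      intro j _
      rw [measure_preimage_add_right]
      exact ih (k + 1)
    refine (Finset.sum_le_sum hsum).trans ?_
    rw [Finset.sum_const, Finset.card_range, nsmul_eq_mul]
    have h6 : (M : ℝ≥0∞) = ENNReal.ofReal (M : ℝ) := by
      rw [ENNReal.ofReal_natCast]
    rw [h6, ← ENNReal.ofReal_mul (by positivity)]
    apply le_of_eq
    congr 1
    have h7 : k + 1 + n = k + (n + 1) := by ring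
    rw [h7]
    ring

/-- the reflection -/
def Rf (x : Fin 2 → ℝ) : Fin 2 → ℝ := ![1 - x 0, x 1]

theorem abs_sd (y : ℝ) : |sd y| = |2 * y - round (2 * y)| / 2 := by
  unfold sd
  have h1 : y - (round (2 * y) : ℝ) / 2 = (2 * y - round (2 * y)) / 2 := by ring
  rw [h1, abs_div]
  norm_num

theorem abs_sd_le (y : ℝ) : |sd y| ≤ 1 / 4 := by
  rw [abs_sd]
  have := abs_sub_round (2 * y)
  linarith

theorem abs_sd_refl (y : ℝ) : |sd (1 - y)| = |sd y| := by
  rw [abs_sd, abs_sd]
  congr 1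
  rw [abs_sub_round_eq_min, abs_sub_round_eq_min]
  have h1 : Int.fract (2 * (1 - y)) = Int.fract (-(2 * y)) := by
    have : 2 * (1 - y) = -(2 * y) + ((2 : ℤ) : ℝ) := by push_cast; ring
    rw [this, Int.fract_add_intCast]
  rw [h1]
  by_cases h : Int.fract (2 * y) = 0
  · have h2 : Int.fract (-(2 * y)) = 0 := Int.fract_neg_eq_zero.2 h
    rw [h, h2]
  · rw [Int.fract_neg h, min_comm]
    congr 1
    ring

theorem sd_zero {y : ℝ} (h : Real.sin (2 * Real.pi * y) = 0) : sd y = 0 := by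
  rw [Real.sin_eq_zero_iff] at h
  obtain ⟨n, hn⟩ := h
  have h1 : 2 * y = n := by
    have hpi := Real.pi_pos
    have h2 : Real.pi * (2 * y - n) = 0 := by linarith
    rcases mul_eq_zero.1 h2 with h3 | h3
    · exact absurd h3 hpi.ne'
    · linarith
  unfold sd
  rw [h1, round_intCast]
  linarith

theorem gi_refl {r : ℝ} (hr : 0 < r) (x : Fin 2 → ℝ) : gi r (Rf x) = - gi r x := by
  have e1 : (Rf x) 0 = 1 - x 0 := by simp [Rf]
  unfold gi
  simp only [e1, abs_sd_refl]
  by_cases h : r ≤ |sd (x 0)| ∧ |sd (x 0)| ≤ 2 * r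
  · rw [if_pos h, if_pos h]
    have hs : Real.sin (2 * Real.pi * (1 - x 0)) = - Real.sin (2 * Real.pi * x 0) := by
      have : 2 * Real.pi * (1 - x 0) = 2 * Real.pi - 2 * Real.pi * x 0 := by ring
      rw [this, Real.sin_two_pi_sub]
    rw [hs]
    have hne : Real.sin (2 * Real.pi * x 0) ≠ 0 := by
      intro h0
      have := sd_zero h0
      rw [this, abs_zero] at h
      linarith [h.1]
    rcases lt_or_gt_of_ne hne with h1 | h1
    · rw [if_pos (by linarith), if_neg (by linarith)]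
      ring
    · rw [if_neg (by linarith), if_pos h1]
  · rw [if_neg h, if_neg h]
    ring

theorem gi_abs (r : ℝ) (x : Fin 2 → ℝ) : |gi r x| ≤ 1 := by
  unfold gi
  split_ifs <;> simp

theorem meas_sd : Measurable sd := by
  unfold sd
  have h1 : (fun y : ℝ => y - (round (2 * y) : ℝ) / 2) = fun y => y - ((⌊2 * y + 1 / 2⌋ : ℤ) : ℝ) / 2 := by
    funext y
    rw [round_eq]
  rw [h1]
  have h2 : Measurable (fun y : ℝ => ⌊2 * y + 1 / 2⌋) := by
    apply Measurable.floor
    fun_prop
  have h3 : Measurable (fun y : ℝ => ((⌊2 * y + 1 / 2⌋ : ℤ) : ℝ)) :=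
    (measurable_from_top (f := fun z : ℤ => (z : ℝ))).comp h2
  exact measurable_id.sub (h3.div_const 2)

theorem meas_gi (r : ℝ) : Measurable (gi r) := by
  unfold gi
  have h0 : Measurable (fun x : Fin 2 → ℝ => |sd (x 0)|) :=
    (meas_sd.comp (measurable_pi_apply 0)).abs
  refine Measurable.ite ?_ (Measurable.ite ?_ measurable_const measurable_const) measurable_const
  · exact (measurableSet_le measurable_const h0).inter (measurableSet_le h0 measurable_const)
  · have h1 : Measurable (fun x : Fin 2 → ℝ => Real.sin (2 * Real.pi * x 0)) := by fun_prop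
    exact measurableSet_lt measurable_const h1

theorem Rf_invol : Function.Involutive Rf := by
  intro x
  funext i
  fin_cases i
  · simp [Rf]
  · simp [Rf]

theorem Rf_mp : MeasurePreserving Rf volume volume := by
  have h : MeasurePreserving (fun (a : Fin 2 → ℝ) (i : Fin 2) =>
      (![fun y : ℝ => 1 - y, fun y : ℝ => y] : Fin 2 → ℝ → ℝ) i (a i)) volume volume := by
    apply volume_preserving_pi
    intro i
    fin_cases i
    · exact Measure.measurePreserving_sub_left volume (1 : ℝ)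
    · exact MeasurePreserving.id volume
  convert h using 1
  funext a i
  fin_cases i <;> simp [Rf]

theorem Rf_emb : MeasurableEmbedding Rf :=
  (MeasurableEquiv.ofInvolutive Rf Rf_invol Rf_mp.measurable).measurableEmbedding

theorem Rf_Q : Rf ⁻¹' (Q 2) =ᵐ[volume] Q 2 := by
  have h1 : Rf ⁻¹' (Q 2) = Set.pi Set.univ (![Ico (0 : ℝ) 1, Ioc (0 : ℝ) 1]) := by
    ext x
    simp only [Q, mem_preimage, mem_univ_pi, Fin.forall_fin_two, Rf, mem_Ioc,
      Matrix.cons_val_zero, Matrix.cons_val_one, mem_Ico]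
    constructor
    · rintro ⟨⟨h1, h2⟩, h3⟩
      exact ⟨⟨by linarith, by linarith⟩, h3⟩
    · rintro ⟨⟨h1, h2⟩, h3⟩
      exact ⟨⟨by linarith, by linarith⟩, h3⟩
  rw [h1]
  unfold Q
  apply Measure.ae_eq_set_pi
  intro i _
  fin_cases i
  · exact Ico_ae_eq_Ioc
  · exact ae_eq_refl _

theorem vol_B {r : ℝ} (hr : 0 < r) :
    volume.real (Q 2 ∩ {x : Fin 2 → ℝ | |sd (x 0)| ≤ 2 * r}) ≤ 12 * r := by
  set S : Set ℝ := ⋃ m ∈ Finset.range 3, Icc ((m : ℝ) / 2 - 2 * r) ((m : ℝ) / 2 + 2 * r) with hS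
  have hsub : Q 2 ∩ {x : Fin 2 → ℝ | |sd (x 0)| ≤ 2 * r} ⊆
      Set.pi Set.univ (![S, Ioc (0 : ℝ) 1]) := by
    rintro x ⟨hx, hx2⟩
    simp only [Q, mem_univ_pi, mem_Ioc] at hx
    simp only [mem_ofPred_eq] at hx2
    have h0 := hx 0
    rw [mem_univ_pi, Fin.forall_fin_two]
    refine ⟨?_, ?_⟩
    · simp only [Matrix.cons_val_zero, hS, mem_iUnion, Finset.mem_range, mem_Icc]
      have h1 := abs_sub_round (2 * x 0)
      rw [abs_le] at h1
      have h2 : (-1 : ℝ) < (round (2 * x 0) : ℝ) := by linarith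
      have h3 : (round (2 * x 0) : ℝ) < 3 := by linarith
      have h2' : (-1 : ℤ) < round (2 * x 0) := by exact_mod_cast h2
      have h3' : round (2 * x 0) < (3 : ℤ) := by exact_mod_cast h3
      obtain ⟨m, hm⟩ := Int.eq_ofNat_of_zero_le (show (0 : ℤ) ≤ round (2 * x 0) by omega)
      have hm3 : m < 3 := by omega
      refine ⟨m, hm3, ?_⟩
      unfold sd at hx2
      rw [hm] at hx2
      rw [abs_le] at hx2
      push_cast at hx2
      constructor <;> linarith [hx2.1, hx2.2]
    · simpa using hx 1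
  have hvolS : volume S ≤ ENNReal.ofReal (12 * r) := by
    refine (measure_biUnion_finset_le _ _).trans ?_
    have : ∀ m ∈ Finset.range 3, volume (Icc ((m : ℝ) / 2 - 2 * r) ((m : ℝ) / 2 + 2 * r)) ≤
        ENNReal.ofReal (4 * r) := by
      intro m _
      rw [Real.volume_Icc]
      apply ENNReal.ofReal_le_ofReal
      linarith
    refine (Finset.sum_le_sum this).trans ?_
    rw [Finset.sum_const, Finset.card_range, nsmul_eq_mul]
    have h6 : ((3 : ℕ) : ℝ≥0∞) = ENNReal.ofReal ((3 : ℕ) : ℝ) := by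
      rw [ENNReal.ofReal_natCast]
    rw [h6, ← ENNReal.ofReal_mul (by positivity)]
    apply le_of_eq
    congr 1
    push_cast
    ring
  have hvol : volume (Q 2 ∩ {x : Fin 2 → ℝ | |sd (x 0)| ≤ 2 * r}) ≤ ENNReal.ofReal (12 * r) := by
    refine (measure_mono hsub).trans ?_
    rw [volume_pi_pi, Fin.prod_univ_two]
    simp only [Matrix.cons_val_zero, Matrix.cons_val_one, Real.volume_Ioc, sub_zero,
      ENNReal.ofReal_one, mul_one]
    exact hvolS
  unfold Measure.real
  have := ENNReal.toReal_mono ENNReal.ofReal_ne_top hvol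
  rwa [ENNReal.toReal_ofReal (by positivity)] at this

theorem vol_Q : volume (Q 2) = 1 := by
  unfold Q
  rw [volume_pi_pi]
  simp

theorem meas_Q : MeasurableSet (Q 2) := by
  unfold Q
  exact MeasurableSet.univ_pi (fun _ => measurableSet_Ioc)

/-- the bound in space -/
theorem inner_bd (g : (Fin 2 → ℝ) → ℝ) (hm : Measurable g) (B : ℝ) (hB : ∀ x, |g x| ≤ B)
    (hper : Per g) (A : ℝ) (hA : 0 ≤ A)
    (hL : ∀ x y : Fin 2 → ℝ, x ∈ Icc (fun _ => (-1 : ℝ)) (fun _ => 2) →
      y ∈ Icc (fun _ => (-1 : ℝ)) (fun _ => 2) → |g x - g y| ≤ A * ‖x - y‖)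
    (r : ℝ) (hr : 0 < r) : |∫ x in Q 2, gi r x * g x| ≤ 24 * A * r ^ 2 := by
  have hmg := meas_gi r
  have hfin : IsFiniteMeasure (volume.restrict (Q 2)) := ⟨by
    rw [Measure.restrict_apply_univ, vol_Q]; exact ENNReal.one_lt_top⟩
  have hi : ∀ h : (Fin 2 → ℝ) → ℝ, Measurable h → (∀ x, |h x| ≤ B) →
      IntegrableOn (fun x => gi r x * h x) (Q 2) := by
    intro h hh hhB
    refine Measure.integrableOn_of_bounded (M := B) (by rw [vol_Q]; exact ENNReal.one_ne_top)
      (hmg.mul hh).aestronglyMeasurable ?_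
    refine Filter.Eventually.of_forall (fun x => ?_)
    rw [Real.norm_eq_abs, abs_mul]
    have h1 := gi_abs r x
    have h2 := hhB x
    have h3 := abs_nonneg (h x)
    calc |gi r x| * |h x| ≤ 1 * |h x| := by gcongr
      _ ≤ B := by linarith
  have h1 := hi g hm hB
  have h2 := hi (fun x => g (Rf x)) (hm.comp Rf_mp.measurable) (fun x => hB _)
  have h3 : ∫ x in Q 2, gi r x * g x = - ∫ x in Q 2, gi r x * g (Rf x) := by
    have h4 := Rf_mp.setIntegral_preimage_emb Rf_emb (fun x => gi r x * g x) (Q 2)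
    rw [← h4, setIntegral_congr_set Rf_Q, ← integral_neg]
    congr 1
    funext x
    rw [gi_refl hr]
    ring
  have h5 : 2 * ∫ x in Q 2, gi r x * g x = ∫ x in Q 2, gi r x * (g x - g (Rf x)) := by
    have h6 : ∫ x in Q 2, gi r x * (g x - g (Rf x)) =
        (∫ x in Q 2, gi r x * g x) - ∫ x in Q 2, gi r x * g (Rf x) := by
      rw [← integral_sub h1 h2]
      congr 1
      funext x
      ring
    rw [h6]
    linarith
  set Bs : Set (Fin 2 → ℝ) := {x : Fin 2 → ℝ | |sd (x 0)| ≤ 2 * r} with hBs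
  have hBm : MeasurableSet Bs := by
    have h0 : Measurable (fun x : Fin 2 → ℝ => |sd (x 0)|) :=
      (meas_sd.comp (measurable_pi_apply 0)).abs
    exact measurableSet_le h0 measurable_const
  have h7 : ∫ x in Q 2 ∩ Bs, gi r x * (g x - g (Rf x)) =
      ∫ x in Q 2, gi r x * (g x - g (Rf x)) := by
    apply (setIntegral_eq_of_subset_of_forall_sdiff_eq_zero meas_Q inter_subset_left ?_).symm
    rintro x ⟨hx, hx2⟩
    have h8 : ¬ (|sd (x 0)| ≤ 2 * r) := fun h => hx2 ⟨hx, h⟩
    have h9 : gi r x = 0 := by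
      unfold gi
      rw [if_neg (fun h => h8 h.2)]
    rw [h9, zero_mul]
  have h10 : ‖∫ x in Q 2 ∩ Bs, gi r x * (g x - g (Rf x))‖ ≤ (4 * A * r) * volume.real (Q 2 ∩ Bs) := by
    apply norm_setIntegral_le_of_norm_le_const
    · exact lt_of_le_of_lt (measure_mono inter_subset_left) (by rw [vol_Q]; exact ENNReal.one_lt_top)
    · rintro x ⟨hx, hx2⟩
      simp only [Q, mem_univ_pi, mem_Ioc] at hx
      simp only [hBs, mem_ofPred_eq] at hx2
      have hx0 := hx 0
      have hx1 := hx 1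
      set m : ℤ := round (2 * x 0) with hm'
      have h11 := abs_sub_round (2 * x 0)
      rw [← hm', abs_le] at h11
      have h12 : g (Rf x) = g ![(m : ℝ) - x 0, x 1] := by
        have h13 := hper ![(m : ℝ) - x 0, x 1] ![1 - m, 0]
        rw [← h13]
        congr 1
        funext i
        fin_cases i
        · simp [Rf]
        · simp [Rf]
      rw [h12, Real.norm_eq_abs, abs_mul]
      have h14 : |g x - g ![(m : ℝ) - x 0, x 1]| ≤ A * ‖x - ![(m : ℝ) - x 0, x 1]‖ := by
        apply hL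
        · rw [mem_Icc, Pi.le_def, Pi.le_def, Fin.forall_fin_two, Fin.forall_fin_two]
          refine ⟨⟨by linarith, by linarith⟩, by linarith, by linarith⟩
        · rw [mem_Icc, Pi.le_def, Pi.le_def, Fin.forall_fin_two, Fin.forall_fin_two]
          simp only [Matrix.cons_val_zero, Matrix.cons_val_one]
          refine ⟨⟨by linarith, by linarith⟩, by linarith, by linarith⟩
      have h15 : ‖x - ![(m : ℝ) - x 0, x 1]‖ ≤ 4 * r := by
        rw [pi_norm_le_iff_of_nonneg (by positivity), Fin.forall_fin_two]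
        constructor
        · simp only [Pi.sub_apply, Matrix.cons_val_zero, Real.norm_eq_abs]
          rw [abs_sd, ← hm'] at hx2
          have h16 : x 0 - ((m : ℝ) - x 0) = 2 * x 0 - m := by ring
          rw [h16]
          linarith
        · simp only [Pi.sub_apply, Matrix.cons_val_one, Real.norm_eq_abs]
          simp
          positivity
      have h17 := gi_abs r x
      calc |gi r x| * |g x - g ![(m : ℝ) - x 0, x 1]| ≤ 1 * (A * (4 * r)) := by
            apply mul_le_mul h17 (h14.trans (by gcongr)) (abs_nonneg _) (by norm_num)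
        _ = 4 * A * r := by ring
  have h18 := vol_B hr
  rw [h7, ← h5, Real.norm_eq_abs, abs_mul] at h10
  have h19 : (4 * A * r) * volume.real (Q 2 ∩ Bs) ≤ (4 * A * r) * (12 * r) := by gcongr
  have h20 : |(2 : ℝ)| = 2 := by norm_num
  rw [h20] at h10
  nlinarith [h10, h19]

/-- Lipschitz bound for a test function. -/
theorem lip {T : ℝ} (g : ℝ → (Fin 2 → ℝ) → ℝ) (hg : ContDiff ℝ (⊤ : ℕ∞) (U g)) :
    ∃ A : ℝ, 0 ≤ A ∧ ∀ t, 0 < t → t < T → ∀ x y : Fin 2 → ℝ,
      x ∈ Icc (fun _ => (-1 : ℝ)) (fun _ => 2) → y ∈ Icc (fun _ => (-1 : ℝ)) (fun _ => 2) →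
      |g t x - g t y| ≤ A * ‖x - y‖ := by
  set K : Set (ℝ × (Fin 2 → ℝ)) := Icc (0 : ℝ) T ×ˢ Icc (fun _ => (-1 : ℝ)) (fun _ => 2) with hK
  have hKc : IsCompact K := isCompact_Icc.prod isCompact_Icc
  have hKconv : Convex ℝ K := (convex_Icc _ _).prod (convex_Icc _ _)
  have hcont : Continuous (fderiv ℝ (U g)) := hg.continuous_fderiv (by simp)
  obtain ⟨C, hC⟩ := hKc.exists_bound_of_continuousOn hcont.continuousOn
  refine ⟨max C 0, le_max_right _ _, ?_⟩
  intro t ht0 htT x y hx hy
  have hdiff : Differentiable ℝ (U g) := hg.differentiable (by simp)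
  have h1 := hKconv.norm_image_sub_le_of_norm_fderiv_le (f := U g) (𝕜 := ℝ) (C := max C 0)
    (fun z _ => hdiff z) (fun z hz => (hC z hz).trans (le_max_left _ _))
    (x := (t, y)) (y := (t, x)) ⟨⟨ht0.le, htT.le⟩, hy⟩ ⟨⟨ht0.le, htT.le⟩, hx⟩
  have h2 : ((t, x) : ℝ × (Fin 2 → ℝ)) - (t, y) = (0, x - y) := by simp
  rw [h2] at h1
  have h3 : ‖((0 : ℝ), x - y)‖ = ‖x - y‖ := by
    rw [Prod.norm_def]
    simp
  rw [h3] at h1
  exact h1

/-- bound for a test function -/
theorem bdd {T : ℝ} (g : ℝ → (Fin 2 → ℝ) → ℝ) (hg : Continuous (U g)) (hp : ∀ t, Per (g t)) :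
    ∃ B : ℝ, ∀ t, 0 < t → t < T → ∀ x, |g t x| ≤ B := by
  set K : Set (ℝ × (Fin 2 → ℝ)) := Icc (0 : ℝ) T ×ˢ Icc (fun _ => (0 : ℝ)) (fun _ => 1) with hK
  have hKc : IsCompact K := isCompact_Icc.prod isCompact_Icc
  obtain ⟨C, hC⟩ := hKc.exists_bound_of_continuousOn hg.continuousOn
  refine ⟨C, ?_⟩
  intro t ht0 htT x
  have h1 := hp t x (fun i => -⌊x i⌋)
  rw [← h1]
  have h2 := hC (t, fun i => x i + ((-⌊x i⌋ : ℤ) : ℝ)) ⟨⟨ht0.le, htT.le⟩, by
    rw [mem_Icc, Pi.le_def, Pi.le_def]
    constructor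
    · intro i
      simp only
      push_cast
      linarith [Int.floor_le (x i)]
    · intro i
      simp only
      push_cast
      linarith [Int.lt_floor_add_one (x i)]⟩
  exact h2

theorem main : S_SRC := by
  intro T n0 N M hP g hg
  obtain ⟨A, hA0, hA⟩ := lip (T := T) g hg.1.smooth
  obtain ⟨B, hB⟩ := bdd (T := T) g hg.1.smooth.continuous hg.1.per
  have hn0 : 0 < n0 := by have := hP.hn; omega
  have hN0 : 0 < N := by have := hP.hN2; omega
  refine ⟨24 * A, by positivity, ?_⟩
  intro K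
  set r := rr n0 N K with hr
  have hrpos : 0 < r := by
    rw [hr]
    unfold rr
    have : 0 < n0 * N ^ K := by positivity
    have h2 : (0 : ℝ) < ((n0 * N ^ K : ℕ) : ℝ) := by exact_mod_cast this
    positivity
  have hKC : 0 ≤ KC n0 N M K := by
    unfold KC
    have := (LL_pos hn0 hN0 (K + 1)).le
    positivity
  set D : ℝ := 24 * A * r ^ 2 with hD
  have hD0 : 0 ≤ D := by positivity
  have hin : ∀ t ∈ Ioo 0 T, ENNReal.ofReal ‖∫ x in Q 2, ft n0 N M K 0 t x * g t x‖ ≤
      ({t | sg n0 N M K 0 t ≠ 0}).indicator (fun _ => ENNReal.ofReal D) t := by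
    intro t ht
    have h1 : ∫ x in Q 2, ft n0 N M K 0 t x * g t x =
        sg n0 N M K 0 t * ∫ x in Q 2, gi r x * g t x := by
      rw [← integral_const_mul]
      congr 1
      funext x
      rw [ft_eq, Nat.zero_add]
      ring
    rw [h1]
    by_cases hs : sg n0 N M K 0 t = 0
    · rw [hs]
      simp
    · rw [indicator_of_mem (show t ∈ {t | sg n0 N M K 0 t ≠ 0} from hs)]
      apply ENNReal.ofReal_le_ofReal
      rw [Real.norm_eq_abs, abs_mul]
      have hgm : Measurable (g t) := by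
        have hc : Continuous (g t) := by
          have := hg.1.smooth.continuous
          exact this.comp (Continuous.prodMk_right t)
        exact hc.measurable
      have h2 := inner_bd (g t) hgm B (hB t ht.1 ht.2) (hg.1.per t) A hA0
        (hA t ht.1 ht.2) r hrpos
      have h3 := sg_le n0 N M K 0 t
      calc |sg n0 N M K 0 t| * |∫ x in Q 2, gi r x * g t x| ≤ 1 * D :=
            mul_le_mul h3 h2 (abs_nonneg _) (by norm_num)
        _ = D := one_mul _
  have h4 : ∫⁻ t in Ioo 0 T, ENNReal.ofReal ‖∫ x in Q 2, ft n0 N M K 0 t x * g t x‖ ≤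
      ENNReal.ofReal D * ENNReal.ofReal ((M : ℝ) ^ K * KC n0 N M K) := by
    calc ∫⁻ t in Ioo 0 T, ENNReal.ofReal ‖∫ x in Q 2, ft n0 N M K 0 t x * g t x‖
        ≤ ∫⁻ t in Ioo 0 T, ({t | sg n0 N M K 0 t ≠ 0}).indicator (fun _ => ENNReal.ofReal D) t :=
          setLIntegral_mono' measurableSet_Ioo hin
      _ ≤ ∫⁻ t, ({t | sg n0 N M K 0 t ≠ 0}).indicator (fun _ => ENNReal.ofReal D) t :=
          setLIntegral_le_lintegral _ _
      _ ≤ ENNReal.ofReal D * volume {t | sg n0 N M K 0 t ≠ 0} := lintegral_indicator_const_le _ _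
      _ ≤ ENNReal.ofReal D * ENNReal.ofReal ((M : ℝ) ^ K * KC n0 N M K) := by
          have h5 := vol_sg (M := M) hn0 hN0 K 0
          rw [Nat.zero_add] at h5
          gcongr
  have h6 := norm_integral_le_lintegral_norm (μ := volume.restrict (Ioo 0 T))
    (fun t => ∫ x in Q 2, ft n0 N M K 0 t x * g t x)
  rw [Real.norm_eq_abs] at h6
  refine h6.trans ?_
  rw [← ENNReal.ofReal_mul hD0] at h4
  have h7 := ENNReal.toReal_mono ENNReal.ofReal_ne_top h4
  rw [ENNReal.toReal_ofReal (by positivity)] at h7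
  refine h7.trans (le_of_eq ?_)
  rw [hD]
  ring

end Pool.Agent.Helper39.ND.SRC
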